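import Mathlib

set_option autoImplicit false

/-!
Sets of rational vectors, pairwise congruent modulo integer vectors, all of whose minors are
bounded by one in absolute value: they have at most `C m ^ 2` elements.
-/

namespace Pool.Agent.H192R3.DM

open Finset Matrix

variable {m : ℕ}

/-- all minors of the family are bounded by one in absolute value -/
def Good (T : Finset (Fin m → ℚ)) : Prop :=
  ∀ (ι : Type) [Fintype ι] [DecidableEq ι] (r : ι → Fin m) (c : ι → (Fin m → ℚ)),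
    (∀ j, c j ∈ T) → |(Matrix.of fun a b => c b (r a)).det| ≤ 1

/-- all differences are integer vectors -/
def Cong (T : Finset (Fin m → ℚ)) : Prop :=
  ∀ c ∈ T, ∀ c' ∈ T, ∀ i, ∃ z : ℤ, c i - c' i = z

lemma Good.mono {T U : Finset (Fin m → ℚ)} (h : Good T) (hU : U ⊆ T) : Good U :=
  fun ι _ _ r c hc => h ι r c (fun j => hU (hc j))

lemma Cong.mono {T U : Finset (Fin m → ℚ)} (h : Cong T) (hU : U ⊆ T) : Cong U :=
  fun c hc c' hc' i => h c (hU hc) c' (hU hc') i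

lemma Good.abs_le {T : Finset (Fin m → ℚ)} (h : Good T) {c : Fin m → ℚ} (hc : c ∈ T) (i : Fin m) :
    |c i| ≤ 1 := by
  have := h Unit (fun _ => i) (fun _ => c) (fun _ => hc)
  simpa [Matrix.det_unique] using this

/-- the status of a vector with respect to a threshold -/
def st (p : Fin m × Bool) (c : Fin m → ℚ) : Prop := if p.2 = true then 0 < c p.1 else 0 ≤ c p.1

/-- three thresholds shattered by the family -/
def Tri (T : Finset (Fin m → ℚ)) (p q r : Fin m × Bool) : Prop :=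
  ∀ A B C : Prop, ∃ c ∈ T, (st p c ↔ A) ∧ (st q c ↔ B) ∧ (st r c ↔ C)

lemma Tri.swap12 {T : Finset (Fin m → ℚ)} {p q r : Fin m × Bool} (h : Tri T p q r) :
    Tri T q p r := fun A B C => by
  obtain ⟨c, hc, h1, h2, h3⟩ := h B A C
  exact ⟨c, hc, h2, h1, h3⟩

lemma Tri.swap23 {T : Finset (Fin m → ℚ)} {p q r : Fin m × Bool} (h : Tri T p q r) :
    Tri T p r q := fun A B C => by
  obtain ⟨c, hc, h1, h2, h3⟩ := h A C B
  exact ⟨c, hc, h1, h3, h2⟩

/-- possible values in a row: either all in `{-1, 0, 1}` or all in `{τ, τ - 1}` with `0 < τ < 1` -/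
lemma row_values {T : Finset (Fin m → ℚ)} (hG : Good T) (hC : Cong T) (i : Fin m) :
    (∀ c ∈ T, c i = -1 ∨ c i = 0 ∨ c i = 1) ∨
    (∃ τ : ℚ, 0 < τ ∧ τ < 1 ∧ ∀ c ∈ T, c i = τ ∨ c i = τ - 1) := by
  rcases T.eq_empty_or_nonempty with rfl | ⟨x, hx⟩
  · left; simp
  set τ := Int.fract (x i) with hτ
  have hfr : ∀ c ∈ T, c i = (⌊c i⌋ : ℚ) + τ := by
    intro c hc
    obtain ⟨z, hz⟩ := hC c hc x hx i
    have h1 : c i = x i + z := by linarith
    have h2 : Int.fract (c i) = τ := by rw [h1, Int.fract_add_intCast]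
    have h3 := Int.floor_add_fract (c i)
    rw [h2] at h3
    exact h3.symm
  have hb : ∀ c ∈ T, -1 ≤ ⌊c i⌋ ∧ ⌊c i⌋ ≤ 1 := by
    intro c hc
    have h := abs_le.1 (hG.abs_le hc i)
    constructor
    · rw [Int.le_floor]; push_cast; exact h.1
    · have : (⌊c i⌋ : ℚ) ≤ 1 := (Int.floor_le _).trans h.2
      exact_mod_cast this
  rcases (Int.fract_nonneg (x i)).eq_or_lt with h0 | h0
  · left
    intro c hc
    have h1 := hfr c hc
    obtain ⟨h2, h3⟩ := hb c hc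
    have hτ0 : τ = 0 := h0.symm
    have : ⌊c i⌋ = -1 ∨ ⌊c i⌋ = 0 ∨ ⌊c i⌋ = 1 := by omega
    rcases this with h | h | h <;> rw [h] at h1 <;> rw [hτ0] at h1 <;> simp at h1 <;> simp [h1]
  · right
    refine ⟨τ, h0, Int.fract_lt_one _, ?_⟩
    intro c hc
    have h1 := hfr c hc
    obtain ⟨h2, h3⟩ := hb c hc
    have h4 := abs_le.1 (hG.abs_le hc i)
    have h5 : ⌊c i⌋ ≠ 1 := by
      intro h
      rw [h] at h1
      push_cast at h1
      linarith [h4.2]
    have : ⌊c i⌋ = -1 ∨ ⌊c i⌋ = 0 := by omega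
    rcases this with h | h
    · right; rw [h] at h1; push_cast at h1; linarith
    · left; rw [h] at h1; push_cast at h1; linarith

/-- normal form of a row with respect to a threshold -/
lemma row_form {T : Finset (Fin m → ℚ)} (hG : Good T) (hC : Cong T) (p : Fin m × Bool) :
    ∃ (σ β : ℚ) (s : Prop), (σ = 1 ∨ σ = -1) ∧ 1 / 2 ≤ β ∧ β ≤ 1 ∧
      ∀ c ∈ T, ((st p c ↔ s) → σ * c p.1 = β) ∧
        (¬ (st p c ↔ s) → σ * c p.1 = β - 1 ∨ (β = 1 ∧ σ * c p.1 = β - 2)) := by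
  obtain ⟨i, b⟩ := p
  rcases row_values hG hC i with h | ⟨τ, h0, h1, h⟩
  · cases b
    · refine ⟨-1, 1, False, Or.inr rfl, by norm_num, le_rfl, ?_⟩
      intro c hc
      simp only [st]
      rcases h c hc with h | h | h <;> simp [h] <;> norm_num
    · refine ⟨1, 1, True, Or.inl rfl, by norm_num, le_rfl, ?_⟩
      intro c hc
      simp only [st]
      rcases h c hc with h | h | h <;> simp [h] <;> norm_num
  · have key : ∀ c ∈ T, (st (i, b) c ∧ c i = τ) ∨ (¬ st (i, b) c ∧ c i = τ - 1) := by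
      intro c hc
      rcases h c hc with h | h
      · left
        refine ⟨?_, h⟩
        cases b <;> simp [st, h] <;> linarith
      · right
        refine ⟨?_, h⟩
        cases b <;> simp [st, h] <;> linarith
    by_cases hτ : 1 / 2 ≤ τ
    · refine ⟨1, τ, True, Or.inl rfl, hτ, h1.le, ?_⟩
      intro c hc
      rcases key c hc with ⟨h2, h3⟩ | ⟨h2, h3⟩ <;> simp [h2, h3]
    · refine ⟨-1, 1 - τ, False, Or.inr rfl, by linarith, by linarith, ?_⟩
      intro c hc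
      rcases key c hc with ⟨h2, h3⟩ | ⟨h2, h3⟩ <;> simp [h2, h3]

/-- a row takes one value for each status, and the two values differ by one -/
def TwoVal (T : Finset (Fin m → ℚ)) (p : Fin m × Bool) : Prop :=
  ∃ x x' : ℚ, |x - x'| = 1 ∧ ∀ c ∈ T, (st p c → c p.1 = x) ∧ (¬ st p c → c p.1 = x')

/-- the key inequality for a shattered triple -/
lemma tri_ineq (β1 β2 β3 d1 d2 d3 : ℚ)
    (h : |(!![β1 - d1, β1, β1; β2, β2 - d2, β2; β3, β3, β3 - d3]).det| ≤ 1) :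
    β1 * d2 * d3 + β2 * d1 * d3 + β3 * d1 * d2 - d1 * d2 * d3 ≤ 1 := by
  have := (abs_le.1 h).2
  rw [Matrix.det_fin_three] at this
  simp at this
  nlinarith [this]

lemma tri_main {T : Finset (Fin m → ℚ)} (hG : Good T) (hC : Cong T) {p q r : Fin m × Bool}
    (ht : Tri T p q r) :
    (∃ j, ∀ c ∈ T, 1 / 3 ≤ |c j|) ∧
    ((TwoVal T p ∧ TwoVal T q) ∨ (TwoVal T p ∧ TwoVal T r) ∨ (TwoVal T q ∧ TwoVal T r)) := by
  obtain ⟨σ1, β1, s1, hσ1, hl1, hu1, H1⟩ := row_form hG hC p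
  obtain ⟨σ2, β2, s2, hσ2, hl2, hu2, H2⟩ := row_form hG hC q
  obtain ⟨σ3, β3, s3, hσ3, hl3, hu3, H3⟩ := row_form hG hC r
  -- far from zero in a row with `β ≤ 2 / 3`
  have far : ∀ (p : Fin m × Bool) (σ β : ℚ) (s : Prop), (σ = 1 ∨ σ = -1) → 1 / 2 ≤ β →
      (∀ c ∈ T, ((st p c ↔ s) → σ * c p.1 = β) ∧
        (¬ (st p c ↔ s) → σ * c p.1 = β - 1 ∨ (β = 1 ∧ σ * c p.1 = β - 2))) → β ≤ 2 / 3 →
      ∀ c ∈ T, 1 / 3 ≤ |c p.1| := by
    intro p σ β s hσ hl H hβ c hc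
    have e : |c p.1| = |σ * c p.1| := by
      rcases hσ with rfl | rfl <;> simp
    rw [e]
    by_cases hs : (st p c ↔ s)
    · rw [(H c hc).1 hs, abs_of_nonneg (by linarith)]; linarith
    · rcases (H c hc).2 hs with h | ⟨h, -⟩
      · rw [h, abs_of_nonpos (by linarith)]; linarith
      · linarith
  have two : ∀ (p : Fin m × Bool) (σ β : ℚ) (s : Prop), (σ = 1 ∨ σ = -1) → 
      (∀ c ∈ T, ((st p c ↔ s) → σ * c p.1 = β) ∧
        (¬ (st p c ↔ s) → σ * c p.1 = β - 1 ∨ (β = 1 ∧ σ * c p.1 = β - 2))) → β ≠ 1 →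
      TwoVal T p := by
    intro p σ β s hσ H hβ
    have hσ2 : σ * σ = 1 := by rcases hσ with rfl | rfl <;> norm_num
    have hσ3 : |σ| = 1 := by rcases hσ with rfl | rfl <;> norm_num
    by_cases hs : s
    · refine ⟨σ * β, σ * (β - 1), ?_, ?_⟩
      · have : σ * β - σ * (β - 1) = σ := by ring
        rw [this, hσ3]
      · intro c hc
        have e : c p.1 = σ * (σ * c p.1) := by rw [← mul_assoc, hσ2, one_mul]
        constructor
        · intro h
          rw [e, (H c hc).1 (by simp [h, hs])]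
        · intro h
          rcases (H c hc).2 (by simp [h, hs]) with h' | ⟨h', -⟩
          · rw [e, h']
          · exact absurd h' hβ
    · refine ⟨σ * (β - 1), σ * β, ?_, ?_⟩
      · have : σ * (β - 1) - σ * β = -σ := by ring
        rw [this, abs_neg, hσ3]
      · intro c hc
        have e : c p.1 = σ * (σ * c p.1) := by rw [← mul_assoc, hσ2, one_mul]
        constructor
        · intro h
          rcases (H c hc).2 (by simp [h, hs]) with h' | ⟨h', -⟩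
          · rw [e, h']
          · exact absurd h' hβ
        · intro h
          rw [e, (H c hc).1 (by simp [h, hs])]
  -- three columns
  obtain ⟨c1, hc1, a1, a2, a3⟩ := ht (¬ s1) s2 s3
  obtain ⟨c2, hc2, b1, b2, b3⟩ := ht s1 (¬ s2) s3
  obtain ⟨c3, hc3, e1, e2, e3⟩ := ht s1 s2 (¬ s3)
  have na1 : ¬ (st p c1 ↔ s1) := by rw [a1]; exact not_iff_self
  have nb2 : ¬ (st q c2 ↔ s2) := by rw [b2]; exact not_iff_self
  have ne3 : ¬ (st r c3 ↔ s3) := by rw [e3]; exact not_iff_self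
  have v12 := (H2 c1 hc1).1 a2
  have v13 := (H3 c1 hc1).1 a3
  have v21 := (H1 c2 hc2).1 b1
  have v23 := (H3 c2 hc2).1 b3
  have v31 := (H1 c3 hc3).1 e1
  have v32 := (H2 c3 hc3).1 e2
  obtain ⟨d1, hd1, v11⟩ : ∃ d : ℚ, (d = 1 ∨ (d = 2 ∧ β1 = 1)) ∧ σ1 * c1 p.1 = β1 - d := by
    rcases (H1 c1 hc1).2 na1 with h | ⟨h, h'⟩
    · exact ⟨1, Or.inl rfl, h⟩
    · exact ⟨2, Or.inr ⟨rfl, h⟩, h'⟩
  obtain ⟨d2, hd2, v22⟩ : ∃ d : ℚ, (d = 1 ∨ (d = 2 ∧ β2 = 1)) ∧ σ2 * c2 q.1 = β2 - d := by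
    rcases (H2 c2 hc2).2 nb2 with h | ⟨h, h'⟩
    · exact ⟨1, Or.inl rfl, h⟩
    · exact ⟨2, Or.inr ⟨rfl, h⟩, h'⟩
  obtain ⟨d3, hd3, v33⟩ : ∃ d : ℚ, (d = 1 ∨ (d = 2 ∧ β3 = 1)) ∧ σ3 * c3 r.1 = β3 - d := by
    rcases (H3 c3 hc3).2 ne3 with h | ⟨h, h'⟩
    · exact ⟨1, Or.inl rfl, h⟩
    · exact ⟨2, Or.inr ⟨rfl, h⟩, h'⟩
  have hdet := hG (Fin 3) ![p.1, q.1, r.1] ![c1, c2, c3] (by
    intro j; fin_cases j <;> simp [hc1, hc2, hc3])
  have hσ : |σ1 * σ2 * σ3| = 1 := by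
    rcases hσ1 with rfl | rfl <;> rcases hσ2 with rfl | rfl <;> rcases hσ3 with rfl | rfl <;>
      norm_num
  have hdet2 : |(!![β1 - d1, β1, β1; β2, β2 - d2, β2; β3, β3, β3 - d3]).det| ≤ 1 := by
    have : (!![β1 - d1, β1, β1; β2, β2 - d2, β2; β3, β3, β3 - d3]).det =
        (σ1 * σ2 * σ3) * (Matrix.of fun a b => (![c1, c2, c3] : Fin 3 → (Fin m → ℚ)) b
          ((![p.1, q.1, r.1] : Fin 3 → Fin m) a)).det := by
      rw [← v11, ← v22, ← v33, Matrix.det_fin_three, Matrix.det_fin_three]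
      simp only [Matrix.of_apply, Matrix.cons_val', Matrix.cons_val_zero, Matrix.cons_val_one,
        Matrix.cons_val_two, Matrix.cons_val, Matrix.tail_cons, Matrix.head_cons]
      rw [show σ1 * c1 p.1 = σ1 * c1 p.1 from rfl]
      have w1 : β1 = σ1 * c2 p.1 := v21.symm
      have w1' : σ1 * c3 p.1 = σ1 * c2 p.1 := by rw [v31, v21]
      have w2 : β2 = σ2 * c1 q.1 := v12.symm
      have w2' : σ2 * c3 q.1 = σ2 * c1 q.1 := by rw [v32, v12]
      have w3 : β3 = σ3 * c1 r.1 := v13.symm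
      have w3' : σ3 * c2 r.1 = σ3 * c1 r.1 := by rw [v23, v13]
      have z1 : c3 p.1 = c2 p.1 := by
        rcases hσ1 with h | h <;> rw [h] at w1' <;> linarith
      have z2 : c3 q.1 = c1 q.1 := by
        rcases hσ2 with h | h <;> rw [h] at w2' <;> linarith
      have z3 : c2 r.1 = c1 r.1 := by
        rcases hσ3 with h | h <;> rw [h] at w3' <;> linarith
      rw [w1, w2, w3, z1, z2, z3]
      ring
    rw [this, abs_mul, hσ, one_mul]
    exact hdet
  have hI := tri_ineq β1 β2 β3 d1 d2 d3 hdet2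
  constructor
  · by_contra hne
    push Not at hne
    have f1 : 2 / 3 < β1 := by
      by_contra hh
      obtain ⟨c, hc, hlt⟩ := hne p.1
      exact absurd (far p σ1 β1 s1 hσ1 hl1 H1 (not_lt.1 hh) c hc) (not_le.2 hlt)
    have f2 : 2 / 3 < β2 := by
      by_contra hh
      obtain ⟨c, hc, hlt⟩ := hne q.1
      exact absurd (far q σ2 β2 s2 hσ2 hl2 H2 (not_lt.1 hh) c hc) (not_le.2 hlt)
    have f3 : 2 / 3 < β3 := by
      by_contra hh
      obtain ⟨c, hc, hlt⟩ := hne r.1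
      exact absurd (far r σ3 β3 s3 hσ3 hl3 H3 (not_lt.1 hh) c hc) (not_le.2 hlt)
    rcases hd1 with rfl | ⟨rfl, g1⟩ <;> rcases hd2 with rfl | ⟨rfl, g2⟩ <;>
      rcases hd3 with rfl | ⟨rfl, g3⟩ <;> linarith
  · by_cases g1 : β1 = 1
    · by_cases g2 : β2 = 1
      · exfalso
        rcases hd1 with rfl | ⟨rfl, -⟩ <;> rcases hd2 with rfl | ⟨rfl, -⟩ <;>
          rcases hd3 with rfl | ⟨rfl, g3⟩ <;> linarith
      · by_cases g3 : β3 = 1
        · exfalso
          rcases hd1 with rfl | ⟨rfl, -⟩ <;> rcases hd2 with rfl | ⟨rfl, g2'⟩ <;>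
            rcases hd3 with rfl | ⟨rfl, -⟩ <;> linarith
        · exact Or.inr (Or.inr ⟨two q σ2 β2 s2 hσ2 H2 g2, two r σ3 β3 s3 hσ3 H3 g3⟩)
    · by_cases g2 : β2 = 1
      · by_cases g3 : β3 = 1
        · exfalso
          rcases hd1 with rfl | ⟨rfl, g1'⟩ <;> rcases hd2 with rfl | ⟨rfl, -⟩ <;>
            rcases hd3 with rfl | ⟨rfl, -⟩ <;> linarith
        · exact Or.inr (Or.inl ⟨two p σ1 β1 s1 hσ1 H1 g1, two r σ3 β3 s3 hσ3 H3 g3⟩)
      · exact Or.inl ⟨two p σ1 β1 s1 hσ1 H1 g1, two q σ2 β2 s2 hσ2 H2 g2⟩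

end Pool.Agent.H192R3.DM
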