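import Pool.Agent.H192R3.DMCore

set_option autoImplicit false

namespace Pool.Agent.H192R3.DM

open Finset Matrix

variable {m : ℕ}

open Classical in
/-- the set of thresholds passed by a vector -/
noncomputable def enc (c : Fin m → ℚ) : Finset (Fin m × Bool) := univ.filter (fun p => st p c)

lemma mem_enc {c : Fin m → ℚ} {p : Fin m × Bool} : p ∈ enc c ↔ st p c := by
  simp [enc]

lemma enc_injOn {T : Finset (Fin m → ℚ)} (hG : Good T) (hC : Cong T) :
    Set.InjOn enc (T : Set (Fin m → ℚ)) := by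
  intro c hc c' hc' h
  funext i
  have h1 : (0 < c i ↔ 0 < c' i) := by
    have : ((i, true) ∈ enc c ↔ (i, true) ∈ enc c') := by rw [h]
    simpa [mem_enc, st] using this
  have h2 : (0 ≤ c i ↔ 0 ≤ c' i) := by
    have : ((i, false) ∈ enc c ↔ (i, false) ∈ enc c') := by rw [h]
    simpa [mem_enc, st] using this
  rcases row_values hG hC i with H | ⟨τ, h0, h3, H⟩
  · rcases H c hc with e | e | e <;> rcases H c' hc' with e' | e' | e' <;>
      simp only [e, e'] at h1 h2 ⊢ <;> first | (norm_num at h1; done) | (norm_num at h2; done)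
  · rcases H c hc with e | e <;> rcases H c' hc' with e' | e' <;> rw [e, e'] at h1 ⊢
    · exact absurd (h1.1 h0) (by linarith)
    · exact absurd (h1.2 h0) (by linarith)

lemma card_le_of_no_tri {T : Finset (Fin m → ℚ)} (hG : Good T) (hC : Cong T)
    (hno : ∀ p q r, ¬ Tri T p q r) : T.card ≤ 2 * m ^ 2 + m + 1 := by
  classical
  have h1 : (T.image enc).card = T.card := Finset.card_image_of_injOn (enc_injOn hG hC)
  have hvc : (T.image enc).vcDim ≤ 2 := by
    unfold Finset.vcDim
    refine Finset.sup_le fun s hs => ?_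
    rw [Finset.mem_shatterer] at hs
    by_contra hlt
    push Not at hlt
    obtain ⟨t, hts, htc⟩ := Finset.exists_subset_card_eq (show 3 ≤ s.card by omega)
    obtain ⟨p, q, r, hpq, hpr, hqr, rfl⟩ := Finset.card_eq_three.1 htc
    have hst := hs.mono_right hts
    apply hno p q r
    intro A B C
    obtain ⟨u, hu, hu2⟩ := hst (t := ({p, q, r} : Finset (Fin m × Bool)).filter
      (fun x => (x = p ∧ A) ∨ (x = q ∧ B) ∨ (x = r ∧ C))) (Finset.filter_subset _ _)
    obtain ⟨c, hc, rfl⟩ := Finset.mem_image.1 hu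
    refine ⟨c, hc, ?_, ?_, ?_⟩
    · have := Finset.ext_iff.1 hu2 p
      simp only [Finset.mem_inter, Finset.mem_filter, Finset.mem_insert, true_or, true_and,
        mem_enc] at this
      rw [this]
      simp [hpq, hpr]
    · have := Finset.ext_iff.1 hu2 q
      simp only [Finset.mem_inter, Finset.mem_filter, Finset.mem_insert, true_or, or_true, true_and,
        mem_enc] at this
      rw [this]
      simp [hpq.symm, hqr]
    · have := Finset.ext_iff.1 hu2 r
      simp only [Finset.mem_inter, Finset.mem_filter, Finset.mem_insert, Finset.mem_singleton,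
        or_true, true_and, mem_enc] at this
      rw [this]
      simp [hpr.symm, hqr.symm]
  have h2 := (Finset.card_le_card_shatterer (T.image enc)).trans
    (Finset.card_shatterer_le_sum_vcDim (𝒜 := T.image enc))
  rw [h1] at h2
  refine h2.trans ?_
  refine (Finset.sum_le_sum_of_subset (Finset.Iic_subset_Iic.2 hvc)).trans ?_
  have h3 : Fintype.card (Fin m × Bool) = 2 * m := by simp [mul_comm]
  rw [h3]
  have h4 : (Finset.Iic 2 : Finset ℕ) = {0, 1, 2} := by decide
  rw [h4]
  rw [Finset.sum_insert (by decide), Finset.sum_insert (by decide), Finset.sum_singleton,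
    Nat.choose_zero_right, Nat.choose_one_right, Nat.choose_two_right]
  have h5 : 2 * m * (2 * m - 1) / 2 ≤ 2 * m ^ 2 - m := by
    have : 2 * m * (2 * m - 1) = 2 * (m * (2 * m - 1)) := by ring
    rw [this, Nat.mul_div_cancel_left _ (by norm_num)]
    rcases m with _ | m
    · simp
    · have h6 : 2 * (m + 1) - 1 = 2 * m + 1 := by omega
      rw [h6]
      apply Nat.le_sub_of_add_le
      ring_nf
      omega
  have h6 : m ≤ 2 * m ^ 2 := by nlinarith [Nat.zero_le m, sq_nonneg m]
  omega

lemma card_image_row_le {T : Finset (Fin m → ℚ)} (hG : Good T) (hC : Cong T) (i : Fin m) :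
    (T.image (fun c => c i)).card ≤ 3 := by
  classical
  rcases row_values hG hC i with H | ⟨τ, -, -, H⟩
  · have : T.image (fun c => c i) ⊆ ({-1, 0, 1} : Finset ℚ) := by
      intro x hx
      obtain ⟨c, hc, rfl⟩ := Finset.mem_image.1 hx
      simpa using H c hc
    exact (Finset.card_le_card this).trans (Finset.card_le_three)
  · have : T.image (fun c => c i) ⊆ ({τ, τ - 1} : Finset ℚ) := by
      intro x hx
      obtain ⟨c, hc, rfl⟩ := Finset.mem_image.1 hx
      simpa using H c hc
    exact ((Finset.card_le_card this).trans (Finset.card_le_two)).trans (by norm_num)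

lemma st_diff {U : Finset (Fin m → ℚ)} (hC : Cong U) {p : Fin m × Bool} {c c' : Fin m → ℚ}
    (hc : c ∈ U) (hc' : c' ∈ U) (h : st p c) (h' : ¬ st p c') : 1 ≤ c p.1 - c' p.1 := by
  obtain ⟨z, hz⟩ := hC c hc c' hc' p.1
  have h1 : c' p.1 < c p.1 := by
    obtain ⟨i, b⟩ := p
    cases b <;> simp [st] at h h' ⊢ <;> linarith
  have h2 : (0 : ℚ) < z := by rw [← hz]; linarith
  have h3 : (0 : ℤ) < z := by exact_mod_cast h2
  have h4 : (1 : ℤ) ≤ z := h3
  rw [hz]
  exact_mod_cast h4

lemma det_four (κ X X' Y Y' z0 z1 z2 z3 : ℚ) :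
    (!![κ, κ, κ, κ; X, X, X', X'; Y, Y', Y, Y'; z0, z1, z2, z3]).det =
      -(κ * (X - X') * (Y - Y') * (z0 + z3 - z1 - z2)) := by
  rw [Matrix.det_succ_row_zero]
  simp [Fin.sum_univ_succ, Matrix.det_fin_three, Fin.succAbove]
  ring

/-- In a family with a constant row of size at least `1 / 3`, a shattered triple makes each class
of vectors with prescribed entries in the three rows totally unimodular, up to a translation. -/
lemma fiber_good {U : Finset (Fin m → ℚ)} (hG : Good U) (hC : Cong U) {i : Fin m} {κ : ℚ}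
    (hκ : ∀ c ∈ U, c i = κ) (hk : 1 / 3 ≤ |κ|) {p q r : Fin m × Bool} (ht : Tri U p q r)
    (hp : TwoVal U p) (hq : TwoVal U q) {v : Fin m → ℚ} (hv : v ∈ U) (W : Finset (Fin m → ℚ))
    (hW : W ⊆ U) (hWv : ∀ c ∈ W, c p.1 = v p.1 ∧ c q.1 = v q.1 ∧ c r.1 = v r.1) :
    Good (W.image (fun c => c - v)) := by
  classical
  intro ι _ _ R y hy
  have hy' : ∀ j, ∃ c ∈ W, c - v = y j := fun j => Finset.mem_image.1 (hy j)
  choose cc hcc hcy using hy'
  obtain ⟨x, x', hx, Hx⟩ := hp
  obtain ⟨w, w', hw, Hw⟩ := hq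
  obtain ⟨p1, hp1, a1, a2, a3⟩ := ht (st p v) (¬ st q v) (¬ st r v)
  obtain ⟨p2, hp2, b1, b2, b3⟩ := ht (¬ st p v) (st q v) (¬ st r v)
  obtain ⟨p3, hp3, e1, e2, e3⟩ := ht (¬ st p v) (¬ st q v) (st r v)
  set A4 : Matrix (Fin 4) (Fin 4) ℚ := Matrix.of fun a b =>
    (![v, p1, p2, p3] : Fin 4 → (Fin m → ℚ)) b ((![i, p.1, q.1, r.1] : Fin 4 → Fin m) a) with hA4
  -- the four by four minor is large
  have hA : 2 / 3 ≤ |A4.det| := by
    have hX : ∃ X X' : ℚ, |X - X'| = 1 ∧ v p.1 = X ∧ p1 p.1 = X ∧ p2 p.1 = X' ∧ p3 p.1 = X' := by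
      by_cases h : st p v
      · refine ⟨x, x', hx, (Hx v hv).1 h, (Hx p1 hp1).1 (a1.2 h), (Hx p2 hp2).2 ?_,
          (Hx p3 hp3).2 ?_⟩
        · rw [b1]; simpa using h
        · rw [e1]; simpa using h
      · refine ⟨x', x, by rw [abs_sub_comm]; exact hx, (Hx v hv).2 h, (Hx p1 hp1).2 ?_,
          (Hx p2 hp2).1 (b1.2 h), (Hx p3 hp3).1 (e1.2 h)⟩
        rw [a1]; exact h
    have hY : ∃ Y Y' : ℚ, |Y - Y'| = 1 ∧ v q.1 = Y ∧ p1 q.1 = Y' ∧ p2 q.1 = Y ∧ p3 q.1 = Y' := by
      by_cases h : st q v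
      · refine ⟨w, w', hw, (Hw v hv).1 h, (Hw p1 hp1).2 ?_, (Hw p2 hp2).1 (b2.2 h),
          (Hw p3 hp3).2 ?_⟩
        · rw [a2]; simpa using h
        · rw [e2]; simpa using h
      · refine ⟨w', w, by rw [abs_sub_comm]; exact hw, (Hw v hv).2 h, (Hw p1 hp1).1 (a2.2 h),
          (Hw p2 hp2).2 ?_, (Hw p3 hp3).1 (e2.2 h)⟩
        rw [b2]; exact h
    have hZ : 2 ≤ |v r.1 + p3 r.1 - p1 r.1 - p2 r.1| := by
      by_cases h : st r v
      · have f1 := st_diff hC hv hp1 h (by rw [a3]; simpa using h)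
        have f2 := st_diff hC hp3 hp2 (e3.2 h) (by rw [b3]; simpa using h)
        refine le_trans ?_ (le_abs_self _)
        linarith
      · have f1 := st_diff hC hp1 hv (a3.2 h) h
        have f2 := st_diff hC hp2 hp3 (b3.2 h) (by rw [e3]; exact h)
        refine le_trans ?_ (neg_le_abs _)
        linarith
    obtain ⟨X, X', hXX, hX0, hX1, hX2, hX3⟩ := hX
    obtain ⟨Y, Y', hYY, hY0, hY1, hY2, hY3⟩ := hY
    have hA4' : A4 = !![κ, κ, κ, κ; X, X, X', X'; Y, Y', Y, Y'; v r.1, p1 r.1, p2 r.1, p3 r.1] := by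
      ext a b
      fin_cases a <;> fin_cases b <;>
        simp [hA4, hκ v hv, hκ p1 hp1, hκ p2 hp2, hκ p3 hp3, hX0, hX1, hX2, hX3, hY0, hY1, hY2,
          hY3]
    rw [hA4', det_four, abs_neg, abs_mul, abs_mul, abs_mul, hXX, hYY]
    nlinarith [abs_nonneg κ]
  -- the big minor
  set C4 : Matrix ι (Fin 4) ℚ := Matrix.of fun a b =>
    (![v, p1, p2, p3] : Fin 4 → (Fin m → ℚ)) b (R a) with hC4
  set D' : Matrix ι ι ℚ := Matrix.of fun a b => y b (R a) with hD'
  set E : Matrix (Fin 4) ι ℚ := Matrix.of fun a _ => if a = 0 then 1 else 0 with hE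
  have hbig := hG (Fin 4 ⊕ ι) (Sum.elim ![i, p.1, q.1, r.1] R) (Sum.elim ![v, p1, p2, p3] cc) (by
    rintro (j | j)
    · fin_cases j <;> simp [hv, hp1, hp2, hp3]
    · simpa using hW (hcc j))
  have hfac : (Matrix.of fun a b => (Sum.elim ![v, p1, p2, p3] cc : Fin 4 ⊕ ι → (Fin m → ℚ)) b
      ((Sum.elim ![i, p.1, q.1, r.1] R : Fin 4 ⊕ ι → Fin m) a)) =
      Matrix.fromBlocks A4 0 C4 D' * Matrix.fromBlocks 1 E 0 1 := by
    rw [Matrix.fromBlocks_multiply]
    ext a b
    rcases a with a | a <;> rcases b with b | b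
    · simp [hA4]
    · simp only [Matrix.of_apply, Sum.elim_inr, Sum.elim_inl, Matrix.fromBlocks_apply₁₂,
        Matrix.zero_mul, add_zero, Matrix.mul_one]
      rw [Matrix.mul_apply, Fin.sum_univ_four]
      have hb := hWv (cc b) (hcc b)
      fin_cases a
      · simp [hE, hA4, hκ v hv, hκ (cc b) (hW (hcc b))]
      · simp [hE, hA4, hb.1]
      · simp [hE, hA4, hb.2.1]
      · simp [hE, hA4, hb.2.2]
    · simp [hC4]
    · simp only [Matrix.of_apply, Sum.elim_inr, Matrix.fromBlocks_apply₂₂,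
        Matrix.mul_one, Matrix.add_apply]
      rw [Matrix.mul_apply, Fin.sum_univ_four]
      simp [hE, hC4, hD', ← hcy b]
  rw [hfac, Matrix.det_mul, Matrix.det_fromBlocks_zero₁₂, Matrix.det_fromBlocks_zero₂₁,
    Matrix.det_one, Matrix.det_one, mul_one, mul_one, abs_mul] at hbig
  -- the remaining minor is an integer
  have hint : ∃ z : ℤ, D'.det = z := by
    have hz : ∀ a b, ∃ z : ℤ, D' a b = z := by
      intro a b
      obtain ⟨z, hz⟩ := hC (cc b) (hW (hcc b)) v hv (R a)
      exact ⟨z, by simp [hD', ← hcy b, hz]⟩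
    choose Z hZ using hz
    refine ⟨(Matrix.of Z).det, ?_⟩
    have : D' = (Matrix.of Z).map (Int.castRingHom ℚ) := by
      ext a b; simp [hZ]
    rw [this, ← RingHom.mapMatrix_apply, ← RingHom.map_det]
    simp
  obtain ⟨z, hz⟩ := hint
  change |D'.det| ≤ 1
  have h1 : |D'.det| ≤ 3 / 2 := by
    by_contra hcon
    push Not at hcon
    nlinarith [abs_nonneg D'.det]
  rw [hz] at h1 ⊢
  have h2 : |(z : ℚ)| < 2 := lt_of_le_of_lt h1 (by norm_num)
  have h3 : |z| < 2 := by exact_mod_cast h2
  have h4 : |z| ≤ 1 := by omega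
  exact_mod_cast h4

/-- bound for a family with a constant row of size at least `1 / 3` -/
lemma card_const_row {U : Finset (Fin m → ℚ)} (hG : Good U) (hC : Cong U) {i : Fin m} {κ : ℚ}
    (hκ : ∀ c ∈ U, c i = κ) (hk : 1 / 3 ≤ |κ|) : U.card ≤ (2 * m ^ 2 + m + 1) * 27 := by
  classical
  by_cases hT : ∃ p q r, Tri U p q r
  · obtain ⟨p, q, r, ht⟩ := hT
    obtain ⟨p, q, r, ht, hp, hq⟩ : ∃ p q r, Tri U p q r ∧ TwoVal U p ∧ TwoVal U q := by
      rcases (tri_main hG hC ht).2 with h | h | h
      · exact ⟨p, q, r, ht, h.1, h.2⟩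
      · exact ⟨p, r, q, ht.swap23, h.1, h.2⟩
      · exact ⟨q, r, p, ht.swap12.swap23, h.1, h.2⟩
    set t := (U.image (fun c => c p.1)) ×ˢ ((U.image (fun c => c q.1)) ×ˢ (U.image (fun c => c r.1)))
    have htc : t.card ≤ 27 := by
      rw [Finset.card_product, Finset.card_product]
      have g1 := card_image_row_le hG hC p.1
      have g2 := card_image_row_le hG hC q.1
      have g3 := card_image_row_le hG hC r.1
      calc _ ≤ 3 * (3 * 3) := Nat.mul_le_mul g1 (Nat.mul_le_mul g2 g3)
        _ = 27 := by norm_num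
    refine (Finset.card_le_mul_card_image_of_maps_to
      (f := fun c : Fin m → ℚ => (c p.1, c q.1, c r.1)) (t := t) (n := 2 * m ^ 2 + m + 1)
      ?_ ?_).trans (Nat.mul_le_mul le_rfl htc)
    · intro c hc
      simp only [t, Finset.mem_product]
      exact ⟨Finset.mem_image_of_mem _ hc, Finset.mem_image_of_mem _ hc,
        Finset.mem_image_of_mem _ hc⟩
    · intro b _
      set W := U.filter (fun c => (c p.1, c q.1, c r.1) = b) with hWdef
      rcases W.eq_empty_or_nonempty with h | ⟨v, hv⟩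
      · rw [h]; simp
      have hvU : v ∈ U := (Finset.mem_filter.1 hv).1
      have hvb := (Finset.mem_filter.1 hv).2
      have hGW := fiber_good hG hC hκ hk ht hp hq hvU W (Finset.filter_subset _ _) (by
        intro c hc
        have h2 := (Finset.mem_filter.1 hc).2
        rw [← hvb] at h2
        simp only [Prod.mk.injEq] at h2
        exact h2)
      have hCW : Cong (W.image (fun c => c - v)) := by
        intro c hc c' hc' i
        obtain ⟨d, hd, rfl⟩ := Finset.mem_image.1 hc
        obtain ⟨d', hd', rfl⟩ := Finset.mem_image.1 hc'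
        obtain ⟨z, hz⟩ := hC d (Finset.filter_subset _ _ hd) d' (Finset.filter_subset _ _ hd') i
        exact ⟨z, by simp only [Pi.sub_apply]; linarith⟩
      have hcard : (W.image (fun c => c - v)).card = W.card :=
        Finset.card_image_of_injective _ (fun a b h => by simpa using h)
      rw [← hcard]
      apply card_le_of_no_tri hGW hCW
      intro p' q' r' ht'
      obtain ⟨j, hj⟩ := (tri_main hGW hCW ht').1
      have := hj 0 (Finset.mem_image.2 ⟨v, hv, by simp⟩)
      simp at this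
      linarith
  · push Not at hT
    refine (card_le_of_no_tri hG hC hT).trans ?_
    omega

/-- **Main bound.** A finite set of rational vectors, pairwise congruent modulo integer vectors,
all of whose minors are bounded by one in absolute value, has at most `81 (2 m ^ 2 + m + 1)`
elements. -/
theorem card_le {T : Finset (Fin m → ℚ)} (hG : Good T) (hC : Cong T) :
    T.card ≤ (2 * m ^ 2 + m + 1) * 27 * 3 := by
  classical
  by_cases hT : ∃ p q r, Tri T p q r
  · obtain ⟨p, q, r, ht⟩ := hT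
    obtain ⟨j, hj⟩ := (tri_main hG hC ht).1
    refine (Finset.card_le_mul_card_image_of_maps_to
      (f := fun c : Fin m → ℚ => c j) (t := T.image (fun c => c j)) 
      (n := (2 * m ^ 2 + m + 1) * 27)
      (fun c hc => Finset.mem_image_of_mem _ hc) ?_).trans
      (Nat.mul_le_mul le_rfl (card_image_row_le hG hC j))
    intro κ hκ
    obtain ⟨c, hc, rfl⟩ := Finset.mem_image.1 hκ
    exact card_const_row (hG.mono (Finset.filter_subset _ _)) (hC.mono (Finset.filter_subset _ _))
      (fun d hd => (Finset.mem_filter.1 hd).2) (hj c hc)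
  · push Not at hT
    refine (card_le_of_no_tri hG hC hT).trans ?_
    omega

end Pool.Agent.H192R3.DM
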