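import Pool.Agent.H192R3.DMCount

set_option autoImplicit false

namespace Pool.Agent.H192R3.DM

open Finset Matrix

variable {m n : ℕ}

/-- the integer matrix, seen over the rationals -/
def toQ {k l : ℕ} (A : Matrix (Fin k) (Fin l) ℤ) : Matrix (Fin k) (Fin l) ℚ :=
  A.map (Int.castRingHom ℚ)

lemma toQ_det {k : ℕ} (A : Matrix (Fin k) (Fin k) ℤ) : (toQ A).det = (A.det : ℚ) := by
  unfold toQ
  rw [← RingHom.mapMatrix_apply, ← RingHom.map_det]
  simp

/-- coordinates of the columns with respect to the chosen maximal minor -/
noncomputable def coord (A : Matrix (Fin m) (Fin n) ℤ) (s0 : Fin m → Fin n) (j : Fin n) :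
    Fin m → ℚ :=
  (toQ (A.submatrix id s0))⁻¹ *ᵥ (fun x => (A x j : ℚ))

lemma mul_coord (A : Matrix (Fin m) (Fin n) ℤ) (s0 : Fin m → Fin n)
    (h0 : (A.submatrix id s0).det ≠ 0) (j : Fin n) :
    (toQ (A.submatrix id s0)) *ᵥ coord A s0 j = fun x => (A x j : ℚ) := by
  have hu : IsUnit (toQ (A.submatrix id s0)).det := by
    rw [toQ_det]
    exact IsUnit.mk0 _ (by exact_mod_cast h0)
  unfold coord
  rw [Matrix.mulVec_mulVec, Matrix.mul_nonsing_inv _ hu, Matrix.one_mulVec]

lemma good_coord (A : Matrix (Fin m) (Fin n) ℤ) (s0 : Fin m → Fin n)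
    (h0 : (A.submatrix id s0).det ≠ 0)
    (hmax : ∀ s : Fin m → Fin n, |(A.submatrix id s).det| ≤ |(A.submatrix id s0).det|)
    [DecidableEq (Fin m → ℚ)] :
    Good ((univ : Finset (Fin n)).image (coord A s0)) := by
  classical
  intro ι _ _ r y hy
  have hy' : ∀ b, ∃ j, coord A s0 j = y b := fun b => by
    obtain ⟨j, -, hj⟩ := Finset.mem_image.1 (hy b)
    exact ⟨j, hj⟩
  choose sel hsel using hy'
  by_cases hr : Function.Injective r
  · set N : Matrix (Fin m) (Fin m) ℚ := Matrix.of fun x l =>
      if h : ∃ a, r a = l then y h.choose x else if x = l then 1 else 0 with hN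
    set s' : Fin m → Fin n := fun l => if h : ∃ a, r a = l then sel h.choose else s0 l with hs'
    have hprod : toQ (A.submatrix id s') = toQ (A.submatrix id s0) * N := by
      ext x l
      rw [Matrix.mul_apply]
      by_cases h : ∃ a, r a = l
      · have h1 := congrFun (mul_coord A s0 h0 (sel h.choose)) x
        rw [hsel] at h1
        simp only [Matrix.mulVec, dotProduct] at h1
        simp only [hN, hs', toQ, Matrix.of_apply, h, Matrix.map_apply, Matrix.submatrix_apply,
          dif_pos, id] at h1 ⊢
        simpa using h1.symm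
      · simp [hN, hs', toQ, h]
    have hdet : |N.det| ≤ 1 := by
      have h1 := congrArg Matrix.det hprod
      rw [Matrix.det_mul, toQ_det, toQ_det] at h1
      have h2 : |((A.submatrix id s').det : ℚ)| ≤ |((A.submatrix id s0).det : ℚ)| := by
        exact_mod_cast hmax s'
      rw [h1, abs_mul] at h2
      have h3 : 0 < |((A.submatrix id s0).det : ℚ)| := by
        rw [abs_pos]; exact_mod_cast h0
      by_contra hcon
      push Not at hcon
      nlinarith
    have hblock : N.det = (Matrix.of fun a b => y b (r a)).det := by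
      rw [Matrix.twoBlockTriangular_det' N (fun l => ∃ a, r a = l) (by
        intro i hi j hj
        have : i ≠ j := by
          rintro rfl
          exact hj hi
        simp only [hN, Matrix.of_apply]
        rw [dif_neg hj, if_neg this])]
      have hone : (Matrix.toSquareBlockProp N fun l => ¬ ∃ a, r a = l) = 1 := by
        ext i j
        simp only [Matrix.toSquareBlockProp_def, hN, Matrix.of_apply]
        rw [dif_neg j.2]
        by_cases hij : i = j
        · subst hij; simp
        · rw [if_neg (fun h => hij (Subtype.ext h)), Matrix.one_apply_ne hij]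
      rw [hone, Matrix.det_one, mul_one]
      let e : ι ≃ {l : Fin m // ∃ a, r a = l} :=
        Equiv.ofBijective (fun a => ⟨r a, a, rfl⟩) ⟨fun a b h => hr (by simpa using h), by
          rintro ⟨l, a, ha⟩
          exact ⟨a, Subtype.ext ha⟩⟩
      rw [← Matrix.det_submatrix_equiv_self e]
      congr 1
      ext a b
      simp only [Matrix.submatrix_apply, Matrix.toSquareBlockProp_def, hN, Matrix.of_apply]
      have h : ∃ a', r a' = ((e b : {l : Fin m // ∃ a, r a = l}) : Fin m) := (e b).2
      have h2 : h.choose = b := hr h.choose_spec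
      rw [dif_pos h, h2]
      rfl
    rw [← hblock]
    exact hdet
  · have : ∃ a b, r a = r b ∧ a ≠ b := by
      by_contra hcon
      push Not at hcon
      exact hr (fun a b h => hcon a b h)
    obtain ⟨a, b, hab, hne⟩ := this
    rw [Matrix.det_zero_of_row_eq hne (by ext j; simp [hab])]
    simp

/-- **Bound on the number of columns.** -/
theorem columns_bound {Δ : ℕ} (hΔ : 1 ≤ Δ) (A : Matrix (Fin m) (Fin n) ℤ)
    (hinj : Function.Injective A.transpose)
    (hle : ∀ s : Fin m → Fin n, |(A.submatrix id s).det| ≤ (Δ : ℤ))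
    (s0 : Fin m → Fin n) (hs0 : |(A.submatrix id s0).det| = (Δ : ℤ)) :
    n ≤ (2 * m ^ 2 + m + 1) * 27 * 3 * Δ := by
  classical
  set B := A.submatrix id s0 with hB
  have h0 : B.det ≠ 0 := by
    intro h
    rw [h] at hs0
    simp at hs0
    omega
  -- the quotient group
  set f : (Fin m → ℤ) →ₗ[ℤ] (Fin m → ℤ) := Matrix.toLin' B with hf
  have hfinj : Function.Injective f := by
    rw [hf]
    intro x y hxy
    rw [Matrix.toLin'_apply, Matrix.toLin'_apply] at hxy
    exact Matrix.mulVec_injective_of_det_ne_zero h0 hxy
  set Q := (Fin m → ℤ) ⧸ (LinearMap.range f) with hQ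
  have hcard : Nat.card Q = Δ := by
    have h := Submodule.natAbs_det_equiv (LinearMap.range f) (LinearEquiv.ofInjective f hfinj)
    have h2 : ((LinearMap.range f).subtype ∘ₗ AddMonoidHom.toIntLinearMap
        ((LinearEquiv.ofInjective f hfinj : (Fin m → ℤ) ≃ₗ[ℤ] LinearMap.range f) :
          (Fin m → ℤ) →+ LinearMap.range f)) = f := by
      ext x : 2
      simp
    rw [h2, hf, LinearMap.det_toLin'] at h
    rw [hQ, ← h]
    have := hs0
    rw [Int.abs_eq_natAbs] at this
    exact_mod_cast this
  have hfin : Finite Q := Nat.finite_of_card_ne_zero (by rw [hcard]; omega)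
  haveI : Fintype Q := Fintype.ofFinite Q
  have hcard' : Fintype.card Q = Δ := by rw [← Nat.card_eq_fintype_card]; exact hcard
  have hG := good_coord A s0 h0 (fun s => by rw [hs0]; exact hle s)
  have hcinj : Function.Injective (coord A s0) := by
    intro j j' h
    apply hinj
    have h1 := mul_coord A s0 h0 j
    rw [h, mul_coord A s0 h0 j'] at h1
    funext x
    have := congrFun h1 x
    simp only [Matrix.transpose_apply]
    exact_mod_cast this.symm
  have key := Finset.card_le_mul_card_image_of_maps_to (s := (univ : Finset (Fin n)))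
    (f := fun j => (Submodule.Quotient.mk (A.transpose j) : Q)) (t := (univ : Finset Q))
    (fun _ _ => Finset.mem_univ _) ((2 * m ^ 2 + m + 1) * 27 * 3) (by
      intro b _
      set W := (univ : Finset (Fin n)).filter
        (fun j => (Submodule.Quotient.mk (A.transpose j) : Q) = b) with hW
      have hc1 : (W.image (coord A s0)).card = W.card := Finset.card_image_of_injective _ hcinj
      rw [← hc1]
      refine card_le (hG.mono (Finset.image_subset_image (Finset.subset_univ _))) ?_
      intro c hc c' hc' i
      obtain ⟨j, hj, rfl⟩ := Finset.mem_image.1 hc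
      obtain ⟨j', hj', rfl⟩ := Finset.mem_image.1 hc'
      have e1 := (Finset.mem_filter.1 hj).2
      have e2 := (Finset.mem_filter.1 hj').2
      have e3 : (Submodule.Quotient.mk (A.transpose j) : Q) =
        Submodule.Quotient.mk (A.transpose j') := by rw [e1, e2]
      rw [Submodule.Quotient.eq] at e3
      obtain ⟨z, hz⟩ := e3
      rw [hf, Matrix.toLin'_apply] at hz
      refine ⟨z i, ?_⟩
      have h1 : (toQ B) *ᵥ (coord A s0 j - coord A s0 j') = (toQ B) *ᵥ (fun i => (z i : ℚ)) := by
        rw [Matrix.mulVec_sub, mul_coord A s0 h0, mul_coord A s0 h0]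
        funext x
        have := congrFun hz x
        simp only [Pi.sub_apply, Matrix.transpose_apply] at this
        simp only [Pi.sub_apply, Matrix.mulVec, dotProduct, toQ, Matrix.map_apply] at this ⊢
        have h2 : ((A x j : ℚ) - (A x j' : ℚ)) = ((A x j - A x j' : ℤ) : ℚ) := by push_cast; ring
        rw [h2, ← this]
        push_cast
        simp
      have h2 : (toQ B).det ≠ 0 := by
        rw [toQ_det]; exact_mod_cast h0
      have h3 := Matrix.mulVec_injective_of_det_ne_zero h2 h1
      have := congrFun h3 i
      simpa using this)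
  rw [Finset.card_univ, Finset.card_univ, Fintype.card_fin, hcard'] at key
  exact key

end Pool.Agent.H192R3.DM
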